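import Pool.Agent.MP_73ea52_lc.Main

/-!
Hjorth's hypothesis implies the perfect set property of coanalytic sets; its instances for
σ-compact sets are equivalent to it.
-/

open Set MeasureTheory

namespace Pool.Agent.Results.MP_73ea52_lc.CompactCase

/-- Borel subsets of Baire space. -/
def IsBorel (C : Set (ℕ → ℕ)) : Prop := MeasurableSet[borel (ℕ → ℕ)] C

/-- Boldface `Π¹₁` subsets of Baire space: complements of analytic sets. -/
def Coanalytic (C : Set (ℕ → ℕ)) : Prop := AnalyticSet Cᶜ

/-- Boldface `Σ¹₂` subsets of Baire space: projections of coanalytic subsets of the plane. -/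
def Sigma12 (B : Set (ℕ → ℕ)) : Prop :=
  ∃ P : Set ((ℕ → ℕ) × (ℕ → ℕ)), AnalyticSet Pᶜ ∧ Prod.fst '' P = B

/-- `B` is a continuous image of `C ⊕ D` for every non-Borel coanalytic set `C`. -/
def ImageOfAll (D : Type) [TopologicalSpace D] (B : Set (ℕ → ℕ)) : Prop :=
  ∀ C : Set (ℕ → ℕ), Coanalytic C → ¬ IsBorel C →
    ∃ f : C ⊕ D → (ℕ → ℕ), Continuous f ∧ range f = B

/-- Hjorth's hypothesis: this holds for every uncountable `Σ¹₂` set `B`. -/
def HjorthHyp (D : Type) [TopologicalSpace D] : Prop :=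
  ∀ B : Set (ℕ → ℕ), Sigma12 B → ¬ B.Countable → ImageOfAll D B

/-- `S` contains a nonempty perfect set. -/
def HasPerfect (S : Set (ℕ → ℕ)) : Prop := ∃ P ⊆ S, Perfect P ∧ P.Nonempty

/-- Every uncountable coanalytic set has a nonempty perfect subset. -/
def PSP : Prop := ∀ C : Set (ℕ → ℕ), Coanalytic C → ¬ C.Countable → HasPerfect C

theorem hasPerfect_of_sigmaCompact {B : Set (ℕ → ℕ)} (hB : IsSigmaCompact B)
    (hunc : ¬ B.Countable) : HasPerfect B := by
  obtain ⟨K, hK, rfl⟩ := hB
  obtain ⟨n, hn⟩ : ∃ n, ¬ (K n).Countable := by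
    by_contra h
    push Not at h
    exact hunc (countable_iUnion h)
  obtain ⟨h, h1, h2, h3⟩ :=
    MP73ea52.AnalyticSet.exists_cantor (hK n).isClosed.analyticSet hn
  exact MP73ea52.hasPerfect_of_cantor h1 h2 fun b => mem_iUnion_of_mem n (h3 b)

/-- For a countable discrete space `D`: Hjorth's hypothesis implies that uncountable coanalytic
sets have perfect subsets; so does its instance for a single set `B` with a perfect subset; and for
uncountable σ-compact `B` this instance is equivalent to it. -/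
theorem result (D : Type) [TopologicalSpace D] [DiscreteTopology D] [Countable D] :
    (HjorthHyp D → PSP) ∧
    (∀ B : Set (ℕ → ℕ), HasPerfect B → ImageOfAll D B → PSP) ∧
    (∀ B : Set (ℕ → ℕ), IsSigmaCompact B → B.Nonempty → PSP → ImageOfAll D B) ∧
    (∀ B : Set (ℕ → ℕ), IsSigmaCompact B → ¬ B.Countable → (ImageOfAll D B ↔ PSP)) := by
  have h2 : ∀ B : Set (ℕ → ℕ), HasPerfect B → ImageOfAll D B → PSP := fun B hB H =>
    MP73ea52.psp_of_imageOfAll (D := D) (B := B) hB H
  have h3 : ∀ B : Set (ℕ → ℕ), IsSigmaCompact B → B.Nonempty → PSP → ImageOfAll D B :=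
    fun B hB hne H => MP73ea52.imageOfAll_of_psp (D := D) H hB hne
  refine ⟨fun H => MP73ea52.psp_of_hjorthHyp (D := D) H, h2, h3, fun B hB hunc => ?_⟩
  have hp : HasPerfect B := hasPerfect_of_sigmaCompact hB hunc
  refine ⟨h2 B hp, h3 B hB ?_⟩
  by_contra hne
  rw [Set.not_nonempty_iff_eq_empty] at hne
  rw [hne] at hunc
  exact hunc Set.countable_empty

end Pool.Agent.Results.MP_73ea52_lc.CompactCase
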