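import Pool.Agent.MP_73ea52_lc.Scale

/-!
# From the unbounded family to a concentrated coanalytic set
-/

open Set PiNat MeasureTheory Filter

namespace MP73ea52

theorem suffix_res_iff {α : Type*} {x : ℕ → α} {n : ℕ} {t : List α} :
    t <:+ res x n ↔ t.length ≤ n ∧ res x t.length = t := by
  induction n with
  | zero =>
    rw [res_zero, List.suffix_nil]
    constructor
    · rintro rfl; exact ⟨le_rfl, rfl⟩
    · rintro ⟨h, -⟩; exact List.eq_nil_of_length_eq_zero (Nat.le_zero.1 h)
  | succ n ih =>
    rw [res_succ, List.suffix_cons_iff, ih]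
    constructor
    · rintro (rfl | ⟨h1, h2⟩)
      · refine ⟨by simp, ?_⟩
        rw [List.length_cons, res_length, res_succ]
      · exact ⟨by omega, h2⟩
    · rintro ⟨h1, h2⟩
      rcases Nat.lt_or_ge n t.length with h | h
      · left
        have : t.length = n + 1 := by omega
        rw [this, res_succ] at h2
        exact h2.symm
      · exact Or.inr ⟨h, h2⟩

/-- enumeration of the finite sequences of pairs -/
def dec (k : ℕ) : List (ℕ × ℕ) := Denumerable.ofNat (List (ℕ × ℕ)) k

theorem dec_encode (s : List (ℕ × ℕ)) : dec (Encodable.encode s) = s :=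
  Denumerable.ofNat_encode s

/-- a pair of sequences as a sequence of pairs -/
def sq (p : (ℕ → ℕ) × (ℕ → ℕ)) : ℕ → ℕ × ℕ := fun n => (p.1 n, p.2 n)

open Classical in
/-- the characteristic function of the set of initial segments of the pair -/
noncomputable def emb (p : (ℕ → ℕ) × (ℕ → ℕ)) : ℕ → ℕ :=
  fun k => if res (sq p) (dec k).length = dec k then 1 else 0

open Classical in
/-- the characteristic function of the set of initial segments of a finite sequence -/
noncomputable def qp (s : List (ℕ × ℕ)) : ℕ → ℕ := fun k => if dec k <:+ s then 1 else 0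

theorem continuous_sq : Continuous sq := by
  refine continuous_pi fun n => ?_
  exact ((continuous_apply n).comp continuous_fst).prodMk ((continuous_apply n).comp continuous_snd)

theorem continuous_emb : Continuous emb := by
  classical
  refine continuous_pi fun k => ?_
  have h := (continuous_resFun (α := ℕ × ℕ) (β := ℕ) (dec k).length
    (fun l => if l = dec k then 1 else 0)).comp continuous_sq
  convert! h using 1

theorem sq_injective : Function.Injective sq := by
  rintro ⟨a, b⟩ ⟨a', b'⟩ h
  have h1 : ∀ n, (a n, b n) = (a' n, b' n) := fun n => congrFun h n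
  have h2 : a = a' := funext fun n => (Prod.mk.inj (h1 n)).1
  have h3 : b = b' := funext fun n => (Prod.mk.inj (h1 n)).2
  rw [h2, h3]

theorem emb_encode (p : (ℕ → ℕ) × (ℕ → ℕ)) (s : List (ℕ × ℕ)) :
    emb p (Encodable.encode s) = 1 ↔ res (sq p) s.length = s := by
  rw [emb, dec_encode]
  split_ifs with h
  · simp [h]
  · simp [h]

theorem emb_injective : Function.Injective emb := by
  intro p p' h
  apply sq_injective
  apply res_injective
  funext n
  have h1 : emb p (Encodable.encode (res (sq p) n)) = 1 := by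
    rw [emb_encode]; simp
  rw [h, emb_encode, res_length] at h1
  exact h1.symm

theorem emb_ne_qp (p : (ℕ → ℕ) × (ℕ → ℕ)) (s : List (ℕ × ℕ)) : emb p ≠ qp s := by
  intro h
  have h1 : emb p (Encodable.encode (res (sq p) (s.length + 1))) = 1 := by
    rw [emb_encode]; simp
  rw [h, qp, dec_encode] at h1
  split_ifs at h1 with h2
  · have := h2.length_le
    rw [res_length] at this
    omega

/-- every open set containing the points `qp s` contains `emb p` for all `p` outside a bounded
set -/
theorem concentration {U : Set (ℕ → ℕ)} (hU : IsOpen U) (hq : ∀ s, qp s ∈ U) :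
    ∃ f : ℕ → ℕ, ∀ p, emb p ∉ U → ∀ n, p.2 n ≤ f n := by
  have hfin : ∀ n, {l : List (ℕ × ℕ) | ∃ p, emb p ∉ U ∧ res (sq p) n = l}.Finite := by
    intro n
    induction n with
    | zero =>
      refine (Set.finite_singleton ([] : List (ℕ × ℕ))).subset ?_
      rintro l ⟨p, -, rfl⟩
      rfl
    | succ n ih =>
      choose K hK using fun s => exists_cyl_subset (hU.mem_nhds (hq s))
      have hfin2 : (⋃ s ∈ {l : List (ℕ × ℕ) | ∃ p, emb p ∉ U ∧ res (sq p) n = l},
          ⋃ k ∈ Set.Iio (K s), {l : List (ℕ × ℕ) | l <:+ dec k}).Finite := by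
        refine ih.biUnion fun s _ => ?_
        refine (Set.finite_Iio _).biUnion fun k _ => ?_
        have : {l : List (ℕ × ℕ) | l <:+ dec k} = {l | l ∈ (dec k).tails} := by
          ext l
          simp [List.mem_tails]
        rw [this]
        exact List.finite_toSet _
      refine hfin2.subset ?_
      rintro l ⟨p, hp, rfl⟩
      rw [mem_iUnion₂]
      refine ⟨res (sq p) n, ⟨p, hp, rfl⟩, ?_⟩
      have hne : ∃ k, k < K (res (sq p) n) ∧ emb p k ≠ qp (res (sq p) n) k := by
        by_contra hc
        push Not at hc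
        apply hp
        refine hK (res (sq p) n) _ le_rfl ?_
        show res (emb p) _ = res (qp _) _
        rw [res_eq_res]
        exact hc
      obtain ⟨k, hk, hne⟩ := hne
      rw [mem_iUnion₂]
      refine ⟨k, hk, ?_⟩
      show res (sq p) (n + 1) <:+ dec k
      rw [emb, qp] at hne
      by_cases h1 : res (sq p) (dec k).length = dec k
      · rw [if_pos h1] at hne
        by_cases h2 : dec k <:+ res (sq p) n
        · rw [if_pos h2] at hne
          exact absurd rfl hne
        · have h3 : n + 1 ≤ (dec k).length := by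
            by_contra h4
            exact h2 (suffix_res_iff.2 ⟨by omega, h1⟩)
          rw [← h1, suffix_res_iff, res_length]
          exact ⟨h3, rfl⟩
      · have h2 : ¬ dec k <:+ res (sq p) n := fun h2 => h1 (suffix_res_iff.1 h2).2
        rw [if_neg h1, if_neg h2] at hne
        exact absurd rfl hne
  have hbd : ∀ n, ∃ N, ∀ p : (ℕ → ℕ) × (ℕ → ℕ), emb p ∉ U → p.2 n ≤ N := by
    intro n
    obtain ⟨N, hN⟩ := ((hfin (n + 1)).image fun l => (l.headD (0, 0)).2).bddAbove
    refine ⟨N, fun p hp => hN ?_⟩
    exact ⟨res (sq p) (n + 1), ⟨p, hp, rfl⟩, rfl⟩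
  choose f hf using hbd
  exact ⟨f, fun p hp n => hf n p hp⟩

theorem uncountable_cantor : ¬ Countable (ℕ → Bool) := by
  intro h
  have h1 : Countable (Set ℕ) := by
    classical
    refine Function.Injective.countable (f := fun (s : Set ℕ) (n : ℕ) => decide (n ∈ s)) ?_
    intro s t hst
    ext n
    have := congrFun hst n
    simpa using this
  obtain ⟨f, hf⟩ := exists_surjective_nat (Set ℕ)
  exact Function.cantor_surjective f hf

theorem not_countable_range_cantor {X : Type*} {h : (ℕ → Bool) → X} (hi : Function.Injective h)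
    {S : Set X} (hS : ∀ b, h b ∈ S) : ¬ S.Countable := by
  intro hc
  apply uncountable_cantor
  have : Countable S := hc.to_subtype
  exact Function.Injective.countable (f := fun b => (⟨h b, hS b⟩ : S)) fun a b hab =>
    hi (Subtype.ext_iff.1 hab)

/-- the Cantor space inside Baire space -/
def bits (b : ℕ → Bool) : ℕ → ℕ := fun n => if b n then 1 else 0

theorem bits_injective : Function.Injective bits := by
  intro a b hab
  funext n
  have h : (if a n then (1 : ℕ) else 0) = if b n then 1 else 0 := congrFun hab n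
  cases ha : a n <;> cases hb : b n <;> rw [ha, hb] at h <;> simp_all

theorem continuous_bits : Continuous bits := by
  refine continuous_pi fun n => ?_
  exact (continuous_of_discreteTopology (f := fun c : Bool => if c then (1 : ℕ) else 0)).comp
    (continuous_apply n)

section Final

variable {P : Set ((ℕ → ℕ) × (ℕ → ℕ))}

/-- the concentrated set -/
def Conc (P : Set ((ℕ → ℕ) × (ℕ → ℕ))) : Set (ℕ → ℕ) := emb '' P ∪ range qp

theorem analyticSet_compl_Conc (hP : AnalyticSet Pᶜ) : AnalyticSet (Conc P)ᶜ := by
  have heq : (Conc P)ᶜ = ((range emb)ᶜ ∪ emb '' Pᶜ) ∩ (range qp)ᶜ := by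
    ext x
    simp only [Conc, mem_compl_iff, mem_union, mem_inter_iff, not_or]
    refine and_congr_left fun _ => ?_
    constructor
    · intro h
      by_cases hx : x ∈ range emb
      · obtain ⟨p, rfl⟩ := hx
        right
        exact ⟨p, fun hp => h ⟨p, hp, rfl⟩, rfl⟩
      · exact Or.inl hx
    · rintro (h | ⟨p, hp, rfl⟩) ⟨p', hp', h'⟩
      · exact h ⟨p', h'⟩
      · rw [emb_injective h'] at hp'
        exact hp hp'
  rw [heq]
  refine AnalyticSet.inter' (AnalyticSet.union' ?_ (hP.image_of_continuous continuous_emb)) ?_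
  · have : MeasurableSet (range emb) :=
      (continuous_emb.measurableEmbedding emb_injective).measurableSet_range
    exact this.compl.analyticSet
  · exact ((countable_range qp).measurableSet.compl).analyticSet

theorem not_measurableSet_Conc (hunc : ¬ P.Countable)
    (hbd : ∀ f : ℕ → ℕ, {p ∈ P | EvLe p.2 f}.Countable) : ¬ MeasurableSet (Conc P) := by
  intro hm
  have hP : P = emb ⁻¹' (Conc P) := by
    ext p
    constructor
    · intro hp
      exact Or.inl ⟨p, hp, rfl⟩
    · rintro (⟨p', hp', h⟩ | ⟨s, hs⟩)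
      · rw [← emb_injective h]; exact hp'
      · exact absurd hs.symm (emb_ne_qp p s)
  have hPm : MeasurableSet P := by
    rw [hP]
    exact hm.preimage continuous_emb.measurable
  obtain ⟨h, h1, h2, h3⟩ := AnalyticSet.exists_cantor hPm.analyticSet hunc
  have hb : ∀ n, ∃ N, ∀ b, (h b).2 n ≤ N := by
    intro n
    have hc : Continuous fun b => (h b).2 n := (continuous_apply n).comp (continuous_snd.comp h1)
    obtain ⟨N, hN⟩ := (isCompact_range hc).bddAbove
    exact ⟨N, fun b => hN ⟨b, rfl⟩⟩
  choose f hf using hb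
  exact not_countable_range_cantor h2 (S := {p ∈ P | EvLe p.2 f})
    (fun b => ⟨h3 b, EvLe.of_le fun n => hf n b⟩) (hbd f)

/-- continuous images of `Conc P ⊕ D` contain no injective continuous image of Baire space -/
theorem no_image_Conc {D : Type*} [TopologicalSpace D] [Countable D]
    (hbd : ∀ f : ℕ → ℕ, {p ∈ P | EvLe p.2 f}.Countable)
    {F : (Conc P : Set (ℕ → ℕ)) ⊕ D → (ℕ → ℕ)} (hF : Continuous F)
    {j : (ℕ → ℕ) → (ℕ → ℕ)} (hj : Continuous j) (hji : Function.Injective j)
    (hrange : range j ⊆ range F) : False := by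
  have hQmem : ∀ s, qp s ∈ Conc P := fun s => Or.inr ⟨s, rfl⟩
  -- the countable part of the image
  let Q' : Set (ℕ → ℕ) := range (fun s => F (Sum.inl ⟨qp s, hQmem s⟩)) ∪ range (fun d => F (Sum.inr d))
  have hQ' : Q'.Countable := (countable_range _).union (countable_range _)
  have hjm : MeasurableSet (range j) := (hj.measurableEmbedding hji).measurableSet_range
  have hA : AnalyticSet (range j \ Q') := (hjm.diff hQ'.measurableSet).analyticSet
  have hunc : ¬ (range j \ Q').Countable := by
    intro hc
    have h1 : (range j).Countable := (hc.union hQ').mono (by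
      rw [sdiff_union_self]; exact subset_union_left)
    have h2 : Countable (ℕ → ℕ) := by
      have : Countable (range j) := h1.to_subtype
      exact Function.Injective.countable (f := fun b => (⟨j b, mem_range_self b⟩ : range j))
        fun a b hab => hji (Subtype.ext_iff.1 hab)
    exact not_countable_range_cantor bits_injective (S := univ) (fun b => mem_univ _)
      (Set.to_countable _)
  obtain ⟨κ, hκ1, hκ2, hκ3⟩ := AnalyticSet.exists_cantor hA hunc
  have hW : IsOpen (range κ)ᶜ := (isCompact_range hκ1).isClosed.isOpen_compl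
  have hW2 : IsOpen ((F ∘ Sum.inl) ⁻¹' (range κ)ᶜ) := hW.preimage (hF.comp continuous_inl)
  obtain ⟨U, hU, hUeq⟩ := isOpen_induced_iff.1 hW2
  have hmemU : ∀ c : (Conc P : Set (ℕ → ℕ)), c.1 ∈ U ↔ F (Sum.inl c) ∉ range κ := by
    intro c
    have : c ∈ Subtype.val ⁻¹' U ↔ c ∈ (F ∘ Sum.inl) ⁻¹' (range κ)ᶜ := by rw [hUeq]
    exact this
  have hqU : ∀ s, qp s ∈ U := by
    intro s
    rw [hmemU ⟨qp s, hQmem s⟩]
    rintro ⟨b, hb⟩
    exact (hκ3 b).2 (Or.inl ⟨s, hb.symm⟩)
  obtain ⟨f, hf⟩ := concentration hU hqU
  have hc : {p ∈ P | EvLe p.2 f}.Countable := hbd f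
  -- all values of `κ` come from those points
  have hcov : ∀ b, ∃ p ∈ {p ∈ P | EvLe p.2 f}, ∃ h : emb p ∈ Conc P,
      F (Sum.inl ⟨emb p, h⟩) = κ b := by
    intro b
    obtain ⟨w, hw⟩ := hrange (hκ3 b).1
    rcases w with c | d
    · obtain ⟨c, hcm⟩ := c
      rcases id hcm with ⟨p, hp, rfl⟩ | ⟨s, rfl⟩
      · refine ⟨p, ⟨hp, EvLe.of_le fun n => hf p ?_ n⟩, hcm, hw⟩
        intro hpU
        exact (hmemU ⟨emb p, hcm⟩).1 hpU ⟨b, hw.symm⟩
      · exact absurd (Or.inl ⟨s, hw⟩) (hκ3 b).2
    · exact absurd (Or.inr ⟨d, hw⟩) (hκ3 b).2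
  choose pt hpt hmem hval using hcov
  refine not_countable_range_cantor (h := pt) ?_ hpt hc
  intro a b hab
  apply hκ2
  rw [← hval a, ← hval b]
  congr 3
  rw [hab]

end Final

end MP73ea52
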