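import Pool.Agent.MP_73ea52_lc.Concentrated

/-!
# Hjorth's hypothesis and the perfect set property of coanalytic sets
-/

open Set PiNat MeasureTheory Filter

namespace MP73ea52

/-- Borel subsets of Baire space -/
def IsBorel (C : Set (ℕ → ℕ)) : Prop := MeasurableSet[borel (ℕ → ℕ)] C

/-- boldface `Π¹₁` subsets of Baire space -/
def Coanalytic (C : Set (ℕ → ℕ)) : Prop := AnalyticSet Cᶜ

/-- boldface `Σ¹₂` subsets of Baire space: projections of coanalytic subsets of the plane -/
def Sigma12 (B : Set (ℕ → ℕ)) : Prop :=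
  ∃ P : Set ((ℕ → ℕ) × (ℕ → ℕ)), AnalyticSet Pᶜ ∧ Prod.fst '' P = B

/-- `B` is a continuous image of `C ⊕ D` for every non-Borel coanalytic set `C` -/
def ImageOfAll (D : Type) [TopologicalSpace D] (B : Set (ℕ → ℕ)) : Prop :=
  ∀ C : Set (ℕ → ℕ), Coanalytic C → ¬ IsBorel C →
    ∃ f : C ⊕ D → (ℕ → ℕ), Continuous f ∧ range f = B

/-- Hjorth's hypothesis -/
def HjorthHyp (D : Type) [TopologicalSpace D] : Prop :=
  ∀ B : Set (ℕ → ℕ), Sigma12 B → ¬ B.Countable → ImageOfAll D B

/-- `S` contains a nonempty perfect set -/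
def HasPerfect (S : Set (ℕ → ℕ)) : Prop := ∃ P ⊆ S, Perfect P ∧ P.Nonempty

/-- every uncountable coanalytic set has a nonempty perfect subset -/
def PSP : Prop := ∀ C : Set (ℕ → ℕ), Coanalytic C → ¬ C.Countable → HasPerfect C

theorem isBorel_iff {C : Set (ℕ → ℕ)} : IsBorel C ↔ MeasurableSet C := by
  rw [IsBorel, BorelSpace.measurable_eq (α := ℕ → ℕ)]

theorem hasPerfect_of_cantor {S : Set (ℕ → ℕ)} {h : (ℕ → Bool) → (ℕ → ℕ)} (hc : Continuous h)
    (hi : Function.Injective h) (hS : ∀ b, h b ∈ S) : HasPerfect S := by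
  refine ⟨range h, by rintro _ ⟨b, rfl⟩; exact hS b, ⟨(isCompact_range hc).isClosed, ?_⟩,
    range_nonempty h⟩
  rintro _ ⟨b, rfl⟩
  rw [accPt_iff_nhds]
  intro U hU
  have hU' : h ⁻¹' U ∈ nhds b := hc.continuousAt hU
  have ht : Tendsto (fun n : ℕ => Function.update b n (!(b n))) atTop (nhds b) := by
    rw [tendsto_pi_nhds]
    intro k
    refine tendsto_const_nhds.congr' ?_
    filter_upwards [eventually_gt_atTop k] with n hn
    rw [Function.update_of_ne (by omega)]
  obtain ⟨n, hn⟩ := (ht.eventually hU').exists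
  refine ⟨h (Function.update b n (!(b n))), ⟨hn, mem_range_self _⟩, fun he => ?_⟩
  have h1 := congrFun (hi he) n
  rw [Function.update_self] at h1
  cases hb : b n <;> rw [hb] at h1 <;> simp at h1

theorem cantor_of_hasPerfect {S : Set (ℕ → ℕ)} (hS : HasPerfect S) :
    ∃ h : (ℕ → Bool) → (ℕ → ℕ), Continuous h ∧ Function.Injective h ∧ ∀ b, h b ∈ S := by
  obtain ⟨P, hPS, hP, hne⟩ := hS
  let := TopologicalSpace.upgradeIsCompletelyMetrizable (ℕ → ℕ)
  obtain ⟨f, h1, h2, h3⟩ := hP.exists_nat_bool_injection hne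
  exact ⟨f, h2, h3, fun b => hPS (h1 (mem_range_self b))⟩

/-- an injective continuous map of Baire space to Cantor space -/
def graphCode (f : ℕ → ℕ) : ℕ → Bool := fun n => decide (f n.unpair.1 = n.unpair.2)

theorem graphCode_injective : Function.Injective graphCode := by
  intro f g h
  funext n
  have h1 := congrFun h (Nat.pair n (f n))
  simp only [graphCode, Nat.unpair_pair, decide_true] at h1
  exact (of_decide_eq_true h1.symm).symm

theorem continuous_graphCode : Continuous graphCode := by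
  refine continuous_pi fun n => ?_
  exact (continuous_of_discreteTopology (f := fun c : ℕ => decide (c = n.unpair.2))).comp
    (continuous_apply n.unpair.1)

/-- The main implication. -/
theorem psp_of_imageOfAll {D : Type} [TopologicalSpace D] [Countable D] {B : Set (ℕ → ℕ)}
    (hB : HasPerfect B) (H : ImageOfAll D B) : PSP := by
  intro C₀ hC₀ hunc
  by_contra hno
  have hthin : Thin C₀ := by
    rintro ⟨h, h1, h2, h3⟩
    exact hno (hasPerfect_of_cantor h1 h2 h3)
  have hnb : ¬ IsBorel C₀ := by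
    rw [isBorel_iff]
    intro hm
    exact hunc (countable_of_thin hthin hm.analyticSet Subset.rfl)
  -- the complement is the range of a continuous map
  have hC₀' := hC₀
  rw [Coanalytic, AnalyticSet] at hC₀'
  rcases hC₀' with h0 | ⟨φ, hφ, hφr⟩
  · apply hnb
    rw [isBorel_iff, compl_empty_iff.1 h0]
    exact MeasurableSet.univ
  have hC₀eq : C₀ = (range φ)ᶜ := by rw [hφr, compl_compl]
  subst hC₀eq
  obtain ⟨ι, hι1, hι2, hι3⟩ := cantor_of_hasPerfect hB
  let j : (ℕ → ℕ) → (ℕ → ℕ) := fun u => ι (graphCode u)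
  have hj : Continuous j := hι1.comp continuous_graphCode
  have hji : Function.Injective j := hι2.comp graphCode_injective
  have hjB : ∀ u, j u ∈ B := fun u => hι3 _
  obtain ⟨F, hF, hFr⟩ := H _ hC₀ hnb
  let g : ((range φ)ᶜ : Set (ℕ → ℕ)) → (ℕ → ℕ) := fun x => F (Sum.inl x)
  have hg : Continuous g := hF.comp continuous_inl
  let E : Set (ℕ → ℕ) := j ⁻¹' (range fun d : D => F (Sum.inr d))
  have hE : E.Countable := (countable_range _).preimage_of_injOn hji.injOn
  have hsurj : ∀ u, u ∉ E → ∃ x, g x = j u := by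
    intro u hu
    have : j u ∈ range F := by rw [hFr]; exact hjB u
    obtain ⟨w, hw⟩ := this
    rcases w with x | d
    · exact ⟨x, hw⟩
    · exact absurd ⟨d, hw⟩ hu
  have hbd := fun f => fam_bounded (g := g) hφ hthin hg hji hE hsurj f
  have hFunc : ¬ (Fam g j).Countable := fam_not_countable hφ hg hE hsurj
  have hca : Coanalytic (Conc (Fam g j)) := analyticSet_compl_Conc (analyticSet_compl_Fam g j hφ hj)
  have hnb2 : ¬ IsBorel (Conc (Fam g j)) := by
    rw [isBorel_iff]
    exact not_measurableSet_Conc hFunc hbd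
  obtain ⟨F', hF', hFr'⟩ := H _ hca hnb2
  refine no_image_Conc hbd hF' hj hji ?_
  rw [hFr']
  rintro _ ⟨u, rfl⟩
  exact hjB u

theorem sigma12_univ : Sigma12 univ := by
  refine ⟨univ, ?_, ?_⟩
  · rw [compl_univ]
    exact analyticSet_empty
  · ext x
    simp

theorem not_countable_univ : ¬ (univ : Set (ℕ → ℕ)).Countable :=
  not_countable_range_cantor bits_injective (fun _ => mem_univ _)

theorem psp_of_hjorthHyp {D : Type} [TopologicalSpace D] [Countable D] (H : HjorthHyp D) : PSP :=
  psp_of_imageOfAll (hasPerfect_of_cantor continuous_bits bits_injective fun _ => mem_univ _)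
    (H univ sigma12_univ not_countable_univ)

/-! ### The converse for σ-compact sets -/

/-- a compact set is the image of any copy of the Cantor space under a map of Baire space -/
theorem exists_map_onto {ι : (ℕ → Bool) → (ℕ → ℕ)} (h1 : Continuous ι)
    (h2 : Function.Injective ι) {K : Set (ℕ → ℕ)} (hK : IsCompact K) (hne : K.Nonempty) :
    ∃ G : (ℕ → ℕ) → (ℕ → ℕ), Continuous G ∧ (∀ x, G x ∈ K) ∧ ∀ y ∈ K, ∃ b, G (ι b) = y := by
  have hemb : Topology.IsClosedEmbedding ι := h1.isClosedEmbedding h2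
  let e := hemb.isEmbedding.toHomeomorph
  obtain ⟨ρ, hρ1, -, hρ2⟩ := PiNat.exists_retraction_subtype_of_isClosed (E := fun _ : ℕ => ℕ)
    hemb.isClosed_range (range_nonempty ι)
  have : Nonempty K := hne.to_subtype
  have : CompactSpace K := isCompact_iff_compactSpace.1 hK
  let := TopologicalSpace.metrizableSpaceMetric K
  obtain ⟨r, hr1, hr2⟩ := exists_nat_bool_continuous_surjective_of_compact K
  refine ⟨fun x => (r (e.symm (ρ x))).1, ?_, fun x => (r _).2, ?_⟩
  · exact continuous_subtype_val.comp (hr1.comp (e.symm.continuous.comp hρ2))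
  · intro y hy
    obtain ⟨b, hb⟩ := hr2 ⟨y, hy⟩
    refine ⟨b, ?_⟩
    have h3 : ρ (ι b) = e b := by
      have := hρ1 ⟨ι b, mem_range_self b⟩
      exact this
    show (r (e.symm (ρ (ι b)))).1 = y
    rw [h3, e.symm_apply_apply, hb]

theorem isOpen_cyl (s : List ℕ) : IsOpen (cyl s) := isOpen_resEq s.length s

theorem isClosed_cyl (s : List ℕ) : IsClosed (cyl s) := by
  have : (cyl s)ᶜ = ⋃ t ∈ {t : List ℕ | t ≠ s}, {z : ℕ → ℕ | res z s.length = t} := by
    ext z
    simp [cyl]
  exact ⟨by rw [this]; exact isOpen_biUnion fun t _ => isOpen_resEq _ t⟩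

/-- the shell of the points whose first difference from `y` is at `m` -/
def shell (y : ℕ → ℕ) (m : ℕ) : Set (ℕ → ℕ) := cyl (res y m) \ cyl (res y (m + 1))

theorem isOpen_shell (y : ℕ → ℕ) (m : ℕ) : IsOpen (shell y m) :=
  (isOpen_cyl _).sdiff (isClosed_cyl _)

theorem isClosed_shell (y : ℕ → ℕ) (m : ℕ) : IsClosed (shell y m) :=
  (isClosed_cyl _).inter (isOpen_cyl _).isClosed_compl

theorem mem_shell_iff {x y : ℕ → ℕ} {m : ℕ} :
    x ∈ shell y m ↔ res x m = res y m ∧ res x (m + 1) ≠ res y (m + 1) := by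
  rw [shell, Set.mem_sdiff, cyl, cyl, Set.mem_ofPred_eq, Set.mem_ofPred_eq, res_length, res_length]

theorem exists_mem_shell {x y : ℕ → ℕ} {n : ℕ} (hn : res x n = res y n) (hxy : x ≠ y) :
    ∃ m, n ≤ m ∧ x ∈ shell y m := by
  classical
  have hex : ∃ m, res x m ≠ res y m := by
    by_contra h
    push Not at h
    exact hxy (res_injective (funext h))
  have hlt : n < Nat.find hex := by
    rw [Nat.lt_find_iff]
    intro m hm
    rw [not_not, res_eq_res]
    intro i hi
    exact (res_eq_res.1 hn) (by omega)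
  obtain ⟨m, hm⟩ := Nat.exists_eq_succ_of_ne_zero (by omega : Nat.find hex ≠ 0)
  refine ⟨m, by omega, mem_shell_iff.2 ⟨?_, ?_⟩⟩
  · by_contra h
    have := Nat.find_min' hex h
    omega
  · have := Nat.find_spec hex
    rwa [hm] at this

theorem shell_unique {x y : ℕ → ℕ} {m m' : ℕ} (h : x ∈ shell y m) (h' : x ∈ shell y m') :
    m = m' := by
  rw [mem_shell_iff] at h h'
  rcases lt_trichotomy m m' with hlt | heq | hlt
  · exact absurd (res_eq_res.2 fun i hi => (res_eq_res.1 h'.1) (by omega)) h.2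
  · exact heq
  · exact absurd (res_eq_res.2 fun i hi => (res_eq_res.1 h.1) (by omega)) h'.2

theorem exists_bad_point {C : Set (ℕ → ℕ)} (hC : ¬ MeasurableSet C) :
    ∃ y, y ∉ C ∧ ∀ n, ∃ m, n ≤ m ∧ ¬ MeasurableSet (C ∩ shell y m) := by
  let C' : Set (ℕ → ℕ) := {x ∈ C | ∀ n, ¬ MeasurableSet (C ∩ cyl (res x n))}
  have hdiff : MeasurableSet (C \ C') := by
    have : C \ C' = ⋃ s ∈ {s : List ℕ | MeasurableSet (C ∩ cyl s)}, C ∩ cyl s := by
      ext x
      simp only [C', Set.mem_sdiff, mem_iUnion]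
      constructor
      · rintro ⟨hx, hx'⟩
        have : ∃ n, MeasurableSet (C ∩ cyl (res x n)) := by
          by_contra h
          push Not at h
          exact hx' ⟨hx, h⟩
        obtain ⟨n, hn⟩ := this
        exact ⟨res x n, hn, hx, mem_cyl_res x n⟩
      · rintro ⟨s, hs, hx, hxs⟩
        refine ⟨hx, fun hx' => hx'.2 s.length ?_⟩
        have h1 : res x s.length = s := hxs
        rw [h1]
        exact hs
    rw [this]
    exact MeasurableSet.biUnion (Set.to_countable _) fun s hs => hs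
  have hncl : ¬ IsClosed C' := by
    intro hcl
    apply hC
    have : C = C' ∪ (C \ C') := by
      rw [union_sdiff_self]
      exact (union_eq_right.2 fun x hx => hx.1).symm
    rw [this]
    exact hcl.measurableSet.union hdiff
  have : ∃ y ∈ closure C', y ∉ C' := by
    by_contra h
    push Not at h
    exact hncl (isClosed_of_closure_subset h)
  obtain ⟨y, hy, hyC'⟩ := this
  have hnb : ∀ n, ¬ MeasurableSet (C ∩ cyl (res y n)) := by
    intro n
    obtain ⟨x, hx, hx'⟩ := mem_closure_iff.1 hy (cyl (res y n)) (isOpen_cyl _) (mem_cyl_res y n)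
    have h1 : res x n = res y n := by
      have : res x (res y n).length = res y n := hx
      rwa [res_length] at this
    have := hx'.2 n
    rwa [h1] at this
  have hyC : y ∉ C := fun h => hyC' ⟨h, hnb⟩
  refine ⟨y, hyC, fun n => ?_⟩
  by_contra h
  push Not at h
  apply hnb n
  have : C ∩ cyl (res y n) = ⋃ m ∈ {m | n ≤ m}, C ∩ shell y m := by
    ext x
    simp only [mem_iUnion]
    constructor
    · rintro ⟨hx, hxn⟩
      have h1 : res x n = res y n := by
        have : res x (res y n).length = res y n := hxn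
        rwa [res_length] at this
      obtain ⟨m, hm, hxm⟩ := exists_mem_shell h1 (fun h => hyC (h ▸ hx))
      exact ⟨m, hm, hx, hxm⟩
    · rintro ⟨m, hm, hx, hxm⟩
      refine ⟨hx, ?_⟩
      have h1 := (mem_shell_iff.1 hxm).1
      show res x (res y n).length = res y n
      rw [res_length]
      exact res_eq_res.2 fun i hi => (res_eq_res.1 h1) (lt_of_lt_of_le hi hm)
  rw [this]
  exact MeasurableSet.biUnion (Set.to_countable _) fun m hm => h m hm

theorem imageOfAll_of_psp {D : Type} [TopologicalSpace D] (H : PSP) {B : Set (ℕ → ℕ)}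
    (hB : IsSigmaCompact B) (hne : B.Nonempty) : ImageOfAll D B := by
  classical
  intro C hC hnb
  rw [isBorel_iff] at hnb
  obtain ⟨b₀, hb₀⟩ := hne
  obtain ⟨K, hK, hKB⟩ := hB
  obtain ⟨y, hyC, hy⟩ := exists_bad_point hnb
  -- the infinite set of bad shells, and a map of it onto `ℕ`
  let I : Set ℕ := {m | ¬ MeasurableSet (C ∩ shell y m)}
  have hI : I.Infinite := by
    rw [Set.infinite_iff_exists_gt]
    intro n
    obtain ⟨m, hm, hmI⟩ := hy (n + 1)
    exact ⟨m, hmI, by omega⟩
  let ε : ℕ ↪ I := Set.Infinite.natEmbedding I hI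
  have hν : ∃ ν : ℕ → ℕ, ∀ k, ν (ε k).1 = k := by
    refine ⟨Function.invFun fun k => (ε k).1, ?_⟩
    exact Function.leftInverse_invFun fun a b hab => ε.injective (Subtype.ext hab)
  obtain ⟨ν, hν⟩ := hν
  -- Cantor sets in the bad shells
  have hcant : ∀ m, m ∈ I → ∃ h : (ℕ → Bool) → (ℕ → ℕ), Continuous h ∧ Function.Injective h ∧
      ∀ b, h b ∈ C ∩ shell y m := by
    intro m hm
    apply cantor_of_hasPerfect
    apply H
    · rw [Coanalytic, compl_inter]
      exact AnalyticSet.union' hC ((isOpen_shell y m).isClosed_compl.analyticSet)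
    · exact fun h => hm h.measurableSet
  -- the maps on the shells
  have hmap : ∀ m, ∃ G : (ℕ → ℕ) → (ℕ → ℕ), Continuous G ∧ (∀ x, G x ∈ B) ∧
      (m ∈ I → ∀ z ∈ K (ν m), ∃ x ∈ C ∩ shell y m, G x = z) := by
    intro m
    by_cases hm : m ∈ I
    · rcases (K (ν m)).eq_empty_or_nonempty with h0 | h0
      · refine ⟨fun _ => b₀, continuous_const, fun _ => hb₀, fun _ z hz => ?_⟩
        rw [h0] at hz
        exact absurd hz (notMem_empty z)
      · obtain ⟨h, h1, h2, h3⟩ := hcant m hm
        obtain ⟨G, hG1, hG2, hG3⟩ := exists_map_onto h1 h2 (hK (ν m)) h0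
        refine ⟨G, hG1, fun x => ?_, fun _ z hz => ?_⟩
        · rw [← hKB]
          exact mem_iUnion_of_mem _ (hG2 x)
        · obtain ⟨b, hb⟩ := hG3 z hz
          exact ⟨h b, h3 b, hb⟩
    · exact ⟨fun _ => b₀, continuous_const, fun _ => hb₀, fun h => absurd h hm⟩
  choose G hG1 hG2 hG3 using hmap
  have hsh : ∀ x : C, ∃ m, x.1 ∈ shell y m := by
    intro x
    obtain ⟨m, -, hm⟩ := exists_mem_shell (x := x.1) (y := y) (n := 0) rfl
      (fun h => hyC (h ▸ x.2))
    exact ⟨m, hm⟩
  choose sh hsh using hsh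
  let F₀ : C → (ℕ → ℕ) := fun x => G (sh x) x.1
  have hF₀ : Continuous F₀ := by
    rw [continuous_iff_continuousAt]
    intro x
    have h1 : ContinuousAt (fun x' : C => G (sh x) x'.1) x :=
      ((hG1 (sh x)).comp continuous_subtype_val).continuousAt
    refine h1.congr ?_
    have h2 : (Subtype.val ⁻¹' (shell y (sh x)) : Set C) ∈ nhds x :=
      ((isOpen_shell y (sh x)).preimage continuous_subtype_val).mem_nhds (hsh x)
    filter_upwards [h2] with x' hx'
    show G (sh x) x'.1 = G (sh x') x'.1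
    rw [shell_unique hx' (hsh x')]
  refine ⟨Sum.elim F₀ fun _ => b₀, hF₀.sumElim continuous_const, ?_⟩
  apply Subset.antisymm
  · rintro _ ⟨x | d, rfl⟩
    · exact hG2 _ _
    · exact hb₀
  · intro z hz
    rw [← hKB, mem_iUnion] at hz
    obtain ⟨k, hk⟩ := hz
    obtain ⟨x, ⟨hxC, hxs⟩, hGx⟩ := hG3 (ε k).1 (ε k).2 z (by rw [hν]; exact hk)
    refine ⟨Sum.inl ⟨x, hxC⟩, ?_⟩
    show G (sh ⟨x, hxC⟩) x = z
    rw [shell_unique (hsh ⟨x, hxC⟩) hxs, hGx]

end MP73ea52
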