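import Mathlib

/-!
# The perfect set theorem for analytic sets

If `f : (ℕ → ℕ) → X` is continuous, `X` Hausdorff and the range of `f` is uncountable, then there
is a continuous injection of the Cantor space into the range of `f`.
-/

open Set PiNat MeasureTheory

namespace MP73ea52

variable {X : Type*} [TopologicalSpace X]

/-- the cylinder of all sequences whose reversed initial segment is `s` -/
def cyl {α : Type*} (s : List α) : Set (ℕ → α) := {z | res z s.length = s}

theorem mem_cyl_res {α : Type*} (z : ℕ → α) (n : ℕ) : z ∈ cyl (res z n) := by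
  simp [cyl]

theorem res_tail {α : Type*} {z : ℕ → α} {a : α} {s : List α}
    (h : res z (s.length + 1) = a :: s) : res z s.length = s := by
  rw [res_succ] at h
  exact (List.cons.inj h).2

theorem isOpen_resEq {α : Type*} [TopologicalSpace α] [DiscreteTopology α] (n : ℕ) (s : List α) :
    IsOpen {z : ℕ → α | res z n = s} := by
  rw [isOpen_iff_mem_nhds]
  intro z hz
  have h1 : cylinder (E := fun _ => α) z n ∈ nhds z :=
    (isOpen_cylinder (fun _ => α) z n).mem_nhds (self_mem_cylinder z n)
  filter_upwards [h1] with y hy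
  rw [cylinder_eq_res] at hy
  have hy' : res y n = res z n := hy
  have hz' : res z n = s := hz
  show res y n = s
  rw [hy', hz']

theorem continuous_resFun {α : Type*} [TopologicalSpace α] [DiscreteTopology α] {β : Type*}
    [TopologicalSpace β] [DiscreteTopology β] (n : ℕ) (G : List α → β) :
    Continuous (fun z : ℕ → α => G (res z n)) := by
  rw [continuous_discrete_rng]
  intro b
  have : (fun z : ℕ → α => G (res z n)) ⁻¹' {b} = ⋃ s ∈ G ⁻¹' {b}, {z : ℕ → α | res z n = s} := by
    ext z
    simp
  rw [this]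
  exact isOpen_biUnion fun s _ => isOpen_resEq n s

theorem exists_cyl_subset {U : Set (ℕ → ℕ)} {z : ℕ → ℕ} (hU : U ∈ nhds z) :
    ∃ n, ∀ m, n ≤ m → {y | res y m = res z m} ⊆ U := by
  obtain ⟨V, hVU, hV, hz⟩ := mem_nhds_iff.1 hU
  obtain ⟨t, ⟨x, n, rfl⟩, hzt, htV⟩ :=
    (isTopologicalBasis_cylinders (fun _ : ℕ => ℕ)).exists_subset_of_mem_open hz hV
  refine ⟨n, fun m hm y hy => hVU (htV ?_)⟩
  rw [mem_cylinder_iff] at hzt ⊢
  intro i hi
  rw [Set.mem_ofPred_eq, res_eq_res] at hy
  rw [hy (lt_of_lt_of_le hi hm), hzt i hi]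

section Scheme

variable (f : (ℕ → ℕ) → X)

/-- the image of the cylinder is uncountable -/
def Big (s : List ℕ) : Prop := ¬ (f '' cyl s).Countable

theorem split [T2Space X] (hf : Continuous f) {s : List ℕ} (hs : Big f s) :
    ∃ t0 t1 : List ℕ, Big f t0 ∧ Big f t1 ∧ s <:+ t0 ∧ s <:+ t1 ∧ s.length < t0.length ∧
      s.length < t1.length ∧ Disjoint (f '' cyl t0) (f '' cyl t1) := by
  have hN : (⋃ t ∈ {t : List ℕ | ¬ Big f t}, f '' cyl t).Countable := by
    refine Set.Countable.biUnion (Set.to_countable _) ?_
    intro t ht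
    exact not_not.1 ht
  have hun : ¬ (f '' cyl s \ (⋃ t ∈ {t : List ℕ | ¬ Big f t}, f '' cyl t)).Countable := by
    intro h
    exact hs ((h.union hN).mono (by rw [sdiff_union_self]; exact subset_union_left))
  have hnt : (f '' cyl s \ (⋃ t ∈ {t : List ℕ | ¬ Big f t}, f '' cyl t)).Nontrivial := by
    by_contra h
    exact hun (Set.not_nontrivial_iff.1 h).countable
  obtain ⟨_, ⟨⟨z0, hz0, rfl⟩, h0⟩, _, ⟨⟨z1, hz1, rfl⟩, h1⟩, hne⟩ := hnt
  have hb0 : ∀ n, Big f (res z0 n) := by
    intro n
    by_contra h
    exact h0 (mem_biUnion (x := res z0 n) h ⟨z0, mem_cyl_res z0 n, rfl⟩)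
  have hb1 : ∀ n, Big f (res z1 n) := by
    intro n
    by_contra h
    exact h1 (mem_biUnion (x := res z1 n) h ⟨z1, mem_cyl_res z1 n, rfl⟩)
  obtain ⟨U0, U1, hU0, hU1, hm0, hm1, hd⟩ := t2_separation hne
  obtain ⟨n0, hn0⟩ := exists_cyl_subset ((hU0.preimage hf).mem_nhds hm0)
  obtain ⟨n1, hn1⟩ := exists_cyl_subset ((hU1.preimage hf).mem_nhds hm1)
  have suf : ∀ (z : ℕ → ℕ) (hz : z ∈ cyl s) (k : ℕ), s <:+ res z (s.length + k) := by
    intro z hz k
    induction k with
    | zero => rw [Nat.add_zero, show res z s.length = s from hz]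
    | succ k ih =>
      rw [← Nat.add_assoc, res_succ]
      exact ih.trans (List.suffix_cons _ _)
  refine ⟨res z0 (s.length + (n0 + 1)), res z1 (s.length + (n1 + 1)), hb0 _, hb1 _,
    suf z0 hz0 _, suf z1 hz1 _, by simp, by simp, ?_⟩
  refine hd.mono ?_ ?_
  · rintro _ ⟨y, hy, rfl⟩
    refine hn0 (s.length + (n0 + 1)) (by omega) ?_
    simpa [cyl] using hy
  · rintro _ ⟨y, hy, rfl⟩
    refine hn1 (s.length + (n1 + 1)) (by omega) ?_
    simpa [cyl] using hy

end Scheme

/-- **Perfect set theorem for analytic sets** -/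
theorem exists_cantor_of_range [T2Space X] {f : (ℕ → ℕ) → X} (hf : Continuous f)
    (hunc : ¬ (range f).Countable) :
    ∃ h : (ℕ → Bool) → X, Continuous h ∧ Function.Injective h ∧ ∀ b, h b ∈ range f := by
  have hroot : Big f [] := by
    have : cyl ([] : List ℕ) = univ := by
      ext z; simp [cyl]
    rw [Big, this, image_univ]
    exact hunc
  choose L R hL hR hsL hsR hlL hlR hdisj using fun (s : {s // Big f s}) => split f hf s.2
  let D : List Bool → {s // Big f s} := fun l => by
    induction l with
    | nil => exact ⟨[], hroot⟩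
    | cons a l ih => exact if a then ⟨R ih, hR ih⟩ else ⟨L ih, hL ih⟩
  have D_cons : ∀ a l, D (a :: l) = if a then ⟨R (D l), hR (D l)⟩ else ⟨L (D l), hL (D l)⟩ := by
    intro a l
    rfl
  have hsuf : ∀ a l, (D l).1 <:+ (D (a :: l)).1 := by
    intro a l
    rw [D_cons]
    cases a
    · exact hsL (D l)
    · exact hsR (D l)
  have hlen1 : ∀ a l, (D l).1.length < (D (a :: l)).1.length := by
    intro a l
    rw [D_cons]
    cases a
    · exact hlL (D l)
    · exact hlR (D l)
  have hlen : ∀ l, l.length ≤ (D l).1.length := by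
    intro l
    induction l with
    | nil => simp
    | cons a l ih =>
      have := hlen1 a l
      simp only [List.length_cons]
      omega
  have hsufmono : ∀ (x : ℕ → Bool) (n k : ℕ), (D (res x n)).1 <:+ (D (res x (n + k))).1 := by
    intro x n k
    induction k with
    | zero => exact List.suffix_refl _
    | succ k ih =>
      rw [← Nat.add_assoc, res_succ]
      exact ih.trans (hsuf _ _)
  let H : (ℕ → Bool) → (ℕ → ℕ) := fun x k => ((D (res x (k + 1))).1.reverse).getD k 0
  have hH : ∀ x n, H x ∈ cyl (D (res x n)).1 := by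
    intro x n
    have key : ∀ s : List ℕ, (∀ k, k < s.length → H x k = s.reverse.getD k 0) → H x ∈ cyl s := by
      intro s
      induction s with
      | nil => intro _; simp [cyl]
      | cons a s ih =>
        intro h
        have h1 : H x ∈ cyl s := by
          apply ih
          intro k hk
          rw [h k (by simp; omega), List.reverse_cons, List.getD_append _ _ _ _ (by simpa using hk)]
        have h2 : H x s.length = a := by
          rw [h s.length (by simp), List.reverse_cons, List.getD_append_right _ _ _ _ (by simp)]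
          simp
        rw [cyl, Set.mem_ofPred_eq] at h1 ⊢
        rw [List.length_cons, res_succ, h1, h2]
    apply key
    intro k hk
    show ((D (res x (k + 1))).1.reverse).getD k 0 = _
    have hk2 : k < (D (res x (k + 1))).1.length := by
      have h := hlen (res x (k + 1))
      rw [res_length] at h
      omega
    rcases le_total n (k + 1) with h | h
    · obtain ⟨m, hm⟩ := Nat.exists_eq_add_of_le h
      have := hsufmono x n m
      rw [← hm] at this
      obtain ⟨t, ht⟩ := this
      rw [← ht, List.reverse_append, List.getD_append _ _ _ _ (by simpa using hk)]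
    · obtain ⟨m, hm⟩ := Nat.exists_eq_add_of_le h
      have := hsufmono x (k + 1) m
      rw [← hm] at this
      obtain ⟨t, ht⟩ := this
      rw [← ht, List.reverse_append, List.getD_append _ _ _ _ (by simpa using hk2)]
  have hHc : Continuous H := by
    refine continuous_pi fun k => ?_
    exact continuous_resFun (k + 1) (fun l : List Bool => ((D l).1.reverse).getD k 0)
  refine ⟨f ∘ H, hf.comp hHc, ?_, fun b => ⟨H b, rfl⟩⟩
  intro x y hxy
  by_contra hne
  obtain ⟨n, hn⟩ : ∃ n, res x n ≠ res y n := by
    by_contra h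
    push Not at h
    exact hne (res_injective (funext h))
  classical
  have hex : ∃ n, res x n ≠ res y n := ⟨n, hn⟩
  have h0 : Nat.find hex ≠ 0 := by
    intro h
    have := Nat.find_spec hex
    rw [h] at this
    exact this rfl
  obtain ⟨m, hm⟩ := Nat.exists_eq_succ_of_ne_zero h0
  have h1 : res x m = res y m := by
    by_contra h
    have := Nat.find_min' hex h
    omega
  have h2 : x m ≠ y m := by
    intro h
    have := Nat.find_spec hex
    rw [hm] at this
    apply this
    rw [Nat.succ_eq_add_one, res_succ, res_succ, h1, h]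
  have h3 := hH x (m + 1)
  have h4 := hH y (m + 1)
  rw [res_succ, D_cons] at h3 h4
  rw [← h1] at h4
  have h5 : f (H x) = f (H y) := hxy
  have hd := hdisj (D (res x m))
  rw [Set.disjoint_left] at hd
  rcases hx : x m with _ | _ <;> rcases hy : y m with _ | _
  · exact h2 (hx.trans hy.symm)
  · rw [hx] at h3; rw [hy] at h4
    exact hd ⟨H x, h3, rfl⟩ ⟨H y, h4, h5.symm⟩
  · rw [hx] at h3; rw [hy] at h4
    exact hd ⟨H y, h4, rfl⟩ ⟨H x, h3, h5⟩
  · exact h2 (hx.trans hy.symm)

theorem AnalyticSet.exists_cantor [T2Space X] {S : Set X} (hS : AnalyticSet S)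
    (hunc : ¬ S.Countable) :
    ∃ h : (ℕ → Bool) → X, Continuous h ∧ Function.Injective h ∧ ∀ b, h b ∈ S := by
  rw [AnalyticSet] at hS
  rcases hS with rfl | ⟨f, hf, rfl⟩
  · exact absurd Set.countable_empty hunc
  · exact exists_cantor_of_range hf hunc

end MP73ea52
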