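import Pool.Agent.MP_73ea52_lc.Trees

/-!
# The comparison relations are analytic, and the coanalytic unbounded family
-/

open Set PiNat MeasureTheory Filter

namespace MP73ea52

theorem polish4 : PolishSpace (((ℕ → ℕ) × (ℕ → ℕ)) × ((ℕ → ℕ) × (ℕ → ℕ))) := by
  have key : ∀ (A B : Type) [TopologicalSpace A] [TopologicalSpace B] [PolishSpace A]
      [PolishSpace B], PolishSpace (A × B) := by
    intro A B _ _ _ _
    infer_instance
  exact key _ _

section Analytic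

variable (φ : (ℕ → ℕ) → (ℕ → ℕ))

theorem isOpen_treeOf (s : List ℕ) : IsOpen {x | s ∈ treeOf φ x} := by
  have : {x | s ∈ treeOf φ x} =
      ⋃ t ∈ {t : List ℕ | ∃ z, res z s.length = s ∧ res (φ z) s.length = t},
        {x : ℕ → ℕ | res x s.length = t} := by
    ext x
    simp only [treeOf, mem_iUnion]
    constructor
    · rintro ⟨z, h1, h2⟩
      exact ⟨_, ⟨z, h1, h2⟩, rfl⟩
    · rintro ⟨t, ⟨z, h1, h2⟩, h3⟩
      exact ⟨z, h1, h2.trans (Eq.symm h3)⟩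
  rw [this]
  exact isOpen_biUnion fun t _ => isOpen_resEq _ t

theorem isOpen_lab (s t : List ℕ) : IsOpen {b : List ℕ → ℕ | lab b s = t} := by
  induction s generalizing t with
  | nil =>
    by_cases h : t = []
    · subst h
      simp [lab]
    · have : {b : List ℕ → ℕ | lab b [] = t} = ∅ := by
        ext b
        simpa [lab] using Ne.symm h
      rw [this]
      exact isOpen_empty
  | cons a s ih =>
    cases t with
    | nil =>
      have : {b : List ℕ → ℕ | lab b (a :: s) = []} = ∅ := by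
        ext b
        simp [lab]
      rw [this]
      exact isOpen_empty
    | cons c t =>
      have : {b : List ℕ → ℕ | lab b (a :: s) = c :: t} =
          (fun b => b (a :: s)) ⁻¹' {c} ∩ {b : List ℕ → ℕ | lab b s = t} := by
        ext b
        simp [lab]
      rw [this]
      exact ((isOpen_discrete _).preimage (continuous_apply _)).inter (ih t)

theorem analyticSet_emb (r : List ℕ) :
    AnalyticSet {p : (ℕ → ℕ) × (ℕ → ℕ) | Emb (treeOf φ p.1) (treeOf φ p.2) r} := by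
  have hm : MeasurableSet {q : ((ℕ → ℕ) × (ℕ → ℕ)) × (List ℕ → ℕ) |
      ∀ s, s ∈ treeOf φ q.1.1 → lab q.2 s ++ r ∈ treeOf φ q.1.2} := by
    have : {q : ((ℕ → ℕ) × (ℕ → ℕ)) × (List ℕ → ℕ) |
        ∀ s, s ∈ treeOf φ q.1.1 → lab q.2 s ++ r ∈ treeOf φ q.1.2} =
        ⋂ s, ({q : ((ℕ → ℕ) × (ℕ → ℕ)) × (List ℕ → ℕ) | s ∈ treeOf φ q.1.1}ᶜ ∪
          ⋃ t : List ℕ, ({q | lab q.2 s = t} ∩ {q | t ++ r ∈ treeOf φ q.1.2})) := by
      ext q
      simp only [mem_iInter, mem_union, mem_compl_iff, mem_iUnion, mem_inter_iff,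
        Set.mem_ofPred_eq]
      refine forall_congr' fun s => ?_
      constructor
      · intro h
        by_cases hs : s ∈ treeOf φ q.1.1
        · exact Or.inr ⟨_, rfl, h hs⟩
        · exact Or.inl hs
      · rintro (h | ⟨t, ht, h⟩) hs
        · exact absurd hs h
        · rw [ht]; exact h
    rw [this]
    refine MeasurableSet.iInter fun s => MeasurableSet.union ?_ (MeasurableSet.iUnion fun t =>
      MeasurableSet.inter ?_ ?_)
    · exact (((isOpen_treeOf φ s).preimage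
        (continuous_fst.comp continuous_fst)).measurableSet).compl
    · exact ((isOpen_lab s t).preimage continuous_snd).measurableSet
    · exact ((isOpen_treeOf φ (t ++ r)).preimage
        (continuous_snd.comp continuous_fst)).measurableSet
  have himg : {p : (ℕ → ℕ) × (ℕ → ℕ) | Emb (treeOf φ p.1) (treeOf φ p.2) r} =
      Prod.fst '' {q : ((ℕ → ℕ) × (ℕ → ℕ)) × (List ℕ → ℕ) |
      ∀ s, s ∈ treeOf φ q.1.1 → lab q.2 s ++ r ∈ treeOf φ q.1.2} := by
    ext p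
    constructor
    · rintro ⟨b, hb⟩
      exact ⟨(p, b), hb, rfl⟩
    · rintro ⟨⟨p', b⟩, hb, rfl⟩
      exact ⟨b, hb⟩
  rw [himg]
  exact (hm.analyticSet).image_of_continuous continuous_fst

theorem analyticSet_pbelow :
    AnalyticSet {p : (ℕ → ℕ) × (ℕ → ℕ) | PBelow φ p.1 p.2} := by
  have : {p : (ℕ → ℕ) × (ℕ → ℕ) | PBelow φ p.1 p.2} =
      ⋃ c : ℕ, {p : (ℕ → ℕ) × (ℕ → ℕ) | Emb (treeOf φ p.1) (treeOf φ p.2) [c]} := by
    ext p
    rw [mem_iUnion]
    exact Iff.rfl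
  rw [this]
  exact AnalyticSet.iUnion fun c => analyticSet_emb φ [c]

theorem analyticSet_ple :
    AnalyticSet {p : (ℕ → ℕ) × (ℕ → ℕ) | PLe φ p.1 p.2} := analyticSet_emb φ []

end Analytic

theorem AnalyticSet.inter' {X : Type*} [TopologicalSpace X] [T2Space X] {s t : Set X}
    (hs : AnalyticSet s) (ht : AnalyticSet t) : AnalyticSet (s ∩ t) := by
  rw [Set.inter_eq_iInter]
  refine AnalyticSet.iInter fun b => ?_
  cases b
  · exact ht
  · exact hs

theorem AnalyticSet.union' {X : Type*} [TopologicalSpace X] {s t : Set X}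
    (hs : AnalyticSet s) (ht : AnalyticSet t) : AnalyticSet (s ∪ t) := by
  rw [Set.union_eq_iUnion]
  refine AnalyticSet.iUnion fun b => ?_
  cases b
  · exact ht
  · exact hs

/-- eventual domination -/
def EvLe (u v : ℕ → ℕ) : Prop := ∀ᶠ n in atTop, u n ≤ v n

theorem EvLe.trans {u v w : ℕ → ℕ} (h1 : EvLe u v) (h2 : EvLe v w) : EvLe u w := by
  filter_upwards [h1, h2] with n h3 h4 using h3.trans h4

theorem EvLe.of_le {u v : ℕ → ℕ} (h : ∀ n, u n ≤ v n) : EvLe u v :=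
  Eventually.of_forall h

theorem measurableSet_evLe :
    MeasurableSet {p : (ℕ → ℕ) × (ℕ → ℕ) | EvLe p.1 p.2} := by
  have : {p : (ℕ → ℕ) × (ℕ → ℕ) | EvLe p.1 p.2} =
      ⋃ N : ℕ, ⋂ n : ℕ, ⋂ (_ : N ≤ n), {p : (ℕ → ℕ) × (ℕ → ℕ) | p.1 n ≤ p.2 n} := by
    ext p
    simp only [EvLe, eventually_atTop, mem_iUnion, mem_iInter, Set.mem_ofPred_eq]
  rw [this]
  refine MeasurableSet.iUnion fun N => MeasurableSet.iInter fun n => MeasurableSet.iInter fun _ => ?_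
  exact measurableSet_le ((measurable_pi_apply n).comp measurable_fst)
    ((measurable_pi_apply n).comp measurable_snd)

/-- a countable family is dominated -/
theorem exists_evLe_of_countable {s : Set (ℕ → ℕ)} (hs : s.Countable) :
    ∃ f : ℕ → ℕ, ∀ u ∈ s, EvLe u f := by
  rcases s.eq_empty_or_nonempty with rfl | hne
  · exact ⟨0, by simp⟩
  · obtain ⟨e, rfl⟩ := hs.exists_eq_range hne
    refine ⟨fun n => ∑ i ∈ Finset.range (n + 1), e i n, ?_⟩
    rintro _ ⟨i, rfl⟩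
    rw [EvLe, eventually_atTop]
    refine ⟨i, fun n hn => ?_⟩
    exact Finset.single_le_sum (f := fun i => e i n) (fun _ _ => Nat.zero_le _)
      (Finset.mem_range.2 (by omega))

/-- functions above a given one are not countably many -/
theorem exists_ge_not_mem {s : Set (ℕ → ℕ)} (hs : s.Countable) (f : ℕ → ℕ) :
    ∃ u : ℕ → ℕ, (∀ n, f n ≤ u n) ∧ u ∉ s := by
  obtain ⟨h, hh⟩ := exists_evLe_of_countable hs
  refine ⟨fun n => f n + h n + 1, fun n => ?_, fun hm => ?_⟩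
  · show f n ≤ f n + h n + 1
    omega
  · obtain ⟨n, hn⟩ := (hh _ hm).exists
    have hn' : f n + h n + 1 ≤ h n := hn
    omega

section Family

variable {φ : (ℕ → ℕ) → (ℕ → ℕ)} (g : ((range φ)ᶜ : Set (ℕ → ℕ)) → (ℕ → ℕ))
  (j : (ℕ → ℕ) → (ℕ → ℕ))

/-- closure of the graph of `g`, read through `j` -/
def Gr : Set ((ℕ → ℕ) × (ℕ → ℕ)) :=
  {p | (p.1, j p.2) ∈ closure (range fun x : ((range φ)ᶜ : Set (ℕ → ℕ)) => (x.1, g x))}

theorem isClosed_Gr (hj : Continuous j) : IsClosed (Gr g j) :=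
  isClosed_closure.preimage (continuous_fst.prodMk (hj.comp continuous_snd))

theorem mem_Gr_iff (hg : Continuous g) (x : ((range φ)ᶜ : Set (ℕ → ℕ))) (u : ℕ → ℕ) :
    (x.1, u) ∈ Gr g j ↔ g x = j u := by
  let ι : ((range φ)ᶜ : Set (ℕ → ℕ)) × (ℕ → ℕ) → (ℕ → ℕ) × (ℕ → ℕ) := fun p => (p.1.1, p.2)
  have hι : Topology.IsInducing ι :=
    Topology.IsInducing.subtypeVal.prodMap Topology.IsInducing.id
  have hcl : IsClosed {p : ((range φ)ᶜ : Set (ℕ → ℕ)) × (ℕ → ℕ) | g p.1 = p.2} :=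
    isClosed_eq (hg.comp continuous_fst) continuous_snd
  have h1 := hι.closure_eq_preimage_closure_image
    {p : ((range φ)ᶜ : Set (ℕ → ℕ)) × (ℕ → ℕ) | g p.1 = p.2}
  rw [hcl.closure_eq] at h1
  have h2 : ι '' {p : ((range φ)ᶜ : Set (ℕ → ℕ)) × (ℕ → ℕ) | g p.1 = p.2} =
      range fun x : ((range φ)ᶜ : Set (ℕ → ℕ)) => (x.1, g x) := by
    ext q
    constructor
    · rintro ⟨⟨y, v⟩, hyv, rfl⟩
      have hv : g y = v := hyv
      subst hv
      exact ⟨y, rfl⟩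
    · rintro ⟨y, rfl⟩
      exact ⟨(y, g y), rfl, rfl⟩
  rw [h2] at h1
  have h3 : (x, j u) ∈ {p : ((range φ)ᶜ : Set (ℕ → ℕ)) × (ℕ → ℕ) | g p.1 = p.2} ↔
      (x, j u) ∈ ι ⁻¹' closure (range fun x : ((range φ)ᶜ : Set (ℕ → ℕ)) => (x.1, g x)) := by
    rw [← h1]
  exact h3.symm

/-- the family of pairs -/
def Fam : Set ((ℕ → ℕ) × (ℕ → ℕ)) :=
  {p | p.1 ∉ range φ ∧ p ∈ Gr g j ∧
    ∀ y v, (y, v) ∈ Gr g j → PBelow φ y p.1 → ¬ EvLe p.2 v}

theorem analyticSet_compl_Fam (hφ : Continuous φ) (hj : Continuous j) :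
    AnalyticSet (Fam g j)ᶜ := by
  have heq : (Fam g j)ᶜ = (Prod.fst ⁻¹' (range φ)) ∪ ((Gr g j)ᶜ ∪
      (Prod.fst '' {q : ((ℕ → ℕ) × (ℕ → ℕ)) × ((ℕ → ℕ) × (ℕ → ℕ)) |
        q.2 ∈ Gr g j ∧ (PBelow φ q.2.1 q.1.1 ∧ EvLe q.1.2 q.2.2)})) := by
    ext p
    simp only [Fam, mem_compl_iff, mem_union, mem_preimage, mem_image, Set.mem_ofPred_eq]
    constructor
    · intro h
      by_cases h1 : p.1 ∈ range φ
      · exact Or.inl h1
      · by_cases h2 : p ∈ Gr g j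
        · right; right
          by_contra h3
          apply h
          refine ⟨h1, h2, fun y v hyv hb he => h3 ⟨(p, (y, v)), ⟨hyv, hb, he⟩, rfl⟩⟩
        · exact Or.inr (Or.inl h2)
    · rintro (h | h | ⟨⟨p', y, v⟩, ⟨h1, h2, h3⟩, rfl⟩) ⟨a, b, c⟩
      · exact a h
      · exact h b
      · exact c y v h1 h2 h3
  rw [heq]
  refine AnalyticSet.union' ?_ (AnalyticSet.union' ?_ ?_)
  · exact (analyticSet_range_of_polishSpace hφ).preimage continuous_fst
  · exact ((isClosed_Gr g j hj).measurableSet.compl).analyticSet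
  · have hP4 := polish4
    refine AnalyticSet.image_of_continuous ?_ continuous_fst
    have h1 : AnalyticSet {q : ((ℕ → ℕ) × (ℕ → ℕ)) × ((ℕ → ℕ) × (ℕ → ℕ)) | q.2 ∈ Gr g j} :=
      ((isClosed_Gr g j hj).preimage continuous_snd).analyticSet
    have h2 : AnalyticSet {q : ((ℕ → ℕ) × (ℕ → ℕ)) × ((ℕ → ℕ) × (ℕ → ℕ)) |
        PBelow φ q.2.1 q.1.1} := by
      refine (analyticSet_pbelow φ).preimage
        (f := fun q : ((ℕ → ℕ) × (ℕ → ℕ)) × ((ℕ → ℕ) × (ℕ → ℕ)) => (q.2.1, q.1.1)) ?_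
      fun_prop
    have h3 : AnalyticSet {q : ((ℕ → ℕ) × (ℕ → ℕ)) × ((ℕ → ℕ) × (ℕ → ℕ)) |
        EvLe q.1.2 q.2.2} := by
      refine (measurableSet_evLe.analyticSet).preimage
        (f := fun q : ((ℕ → ℕ) × (ℕ → ℕ)) × ((ℕ → ℕ) × (ℕ → ℕ)) => (q.1.2, q.2.2)) ?_
      fun_prop
    exact AnalyticSet.inter' h1 (AnalyticSet.inter' h2 h3)

/-- no Cantor set in the complement of `range φ` -/
def Thin (S : Set (ℕ → ℕ)) : Prop :=
  ¬ ∃ h : (ℕ → Bool) → (ℕ → ℕ), Continuous h ∧ Function.Injective h ∧ ∀ b, h b ∈ S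

theorem countable_of_thin {S A : Set (ℕ → ℕ)} (hS : Thin S) (hA : AnalyticSet A) (hAS : A ⊆ S) :
    A.Countable := by
  by_contra h
  obtain ⟨f, h1, h2, h3⟩ := AnalyticSet.exists_cantor hA h
  exact hS ⟨f, h1, h2, fun b => hAS (h3 b)⟩

variable {g j}

theorem fam_bounded (hφ : Continuous φ) (hthin : Thin (range φ)ᶜ) (hg : Continuous g)
    (hji : Function.Injective j)
    {E : Set (ℕ → ℕ)} (hE : E.Countable) (hsurj : ∀ u, u ∉ E → ∃ x, g x = j u) (f : ℕ → ℕ) :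
    {p ∈ Fam g j | EvLe p.2 f}.Countable := by
  obtain ⟨v, hfv, hvE⟩ := exists_ge_not_mem hE f
  obtain ⟨y, hy⟩ := hsurj v hvE
  have hyv : (y.1, v) ∈ Gr g j := (mem_Gr_iff g j hg y v).2 hy
  have hA : AnalyticSet {x | PLe φ x y.1} := by
    refine (analyticSet_ple φ).preimage (f := fun x : ℕ → ℕ => (x, y.1)) ?_
    fun_prop
  have hAc : {x | PLe φ x y.1}.Countable :=
    countable_of_thin hthin hA fun x hx => not_mem_of_ple hφ y.2 hx
  have hinj : InjOn Prod.fst {p ∈ Fam g j | EvLe p.2 f} := by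
    rintro ⟨x, u⟩ ⟨hp, -⟩ ⟨x', u'⟩ ⟨hp', -⟩ (hxx : x = x')
    subst hxx
    have h1 := (mem_Gr_iff g j hg ⟨x, hp.1⟩ u).1 hp.2.1
    have h2 := (mem_Gr_iff g j hg ⟨x, hp.1⟩ u').1 hp'.2.1
    rw [hji (h1.symm.trans h2)]
  refine Set.countable_of_injective_of_countable_image hinj (hAc.mono ?_)
  rintro _ ⟨⟨x, u⟩, ⟨hp, hle⟩, rfl⟩
  refine ple_of_not_pbelow hφ hp.1 y.2 ?_
  intro hb
  exact hp.2.2 y.1 v hyv hb (hle.trans (EvLe.of_le hfv))

theorem fam_not_countable (hφ : Continuous φ) (hg : Continuous g)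
    {E : Set (ℕ → ℕ)} (hE : E.Countable) (hsurj : ∀ u, u ∉ E → ∃ x, g x = j u) :
    ¬ (Fam g j).Countable := by
  intro hc
  obtain ⟨f, hf⟩ := exists_evLe_of_countable (hc.image Prod.snd)
  obtain ⟨u, hu, huE⟩ := exists_ge_not_mem hE (fun n => f n + 1)
  obtain ⟨x, hx⟩ := hsurj u huE
  obtain ⟨⟨⟨z, w⟩, hz, hzw⟩, huw, hmin⟩ := exists_minimal hφ
    (ι := {p : (ℕ → ℕ) × (ℕ → ℕ) // p.1 ∉ range φ ∧ p ∈ Gr g j}) (fun i => i.1.1)
    (fun i => i.2.1) (fun i => EvLe u i.1.2)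
    ⟨⟨(x.1, u), x.2, (mem_Gr_iff g j hg x u).2 hx⟩, EvLe.of_le fun _ => le_rfl⟩
  have hmem : (z, w) ∈ Fam g j := by
    refine ⟨hz, hzw, fun y v hyv hb hwv => ?_⟩
    exact hmin ⟨(y, v), not_mem_of_pbelow hφ hz hb, hyv⟩ (huw.trans hwv) hb
  have h1 : EvLe u f := huw.trans (hf w ⟨(z, w), hmem, rfl⟩)
  obtain ⟨n, hn⟩ := h1.exists
  have := hu n
  omega

end Family

end MP73ea52
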