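import Pool.Agent.MP_73ea52_lc.PerfectSet

/-!
# Comparing well-founded trees of finite sequences

Finite sequences are lists with the most recent entry first.  We need two facts: for well-founded
trees `S, T`, either `S` embeds (level by level) in `T` or `T` embeds in the subtree of `S` above a
node of length one; and the second relation is well-founded.
-/

open Set PiNat MeasureTheory

namespace MP73ea52

/-- the child relation of a tree -/
def Child (S : Set (List ℕ)) (t s : List ℕ) : Prop := ∃ a, t = a :: s ∧ t ∈ S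

/-- the level-by-level map with labels `b` -/
def lab (b : List ℕ → ℕ) : List ℕ → List ℕ
  | [] => []
  | a :: s => b (a :: s) :: lab b s

/-- there is a level-by-level map of `S` to the subtree of `T` above `r` -/
def Emb (S T : Set (List ℕ)) (r : List ℕ) : Prop :=
  ∃ b : List ℕ → ℕ, ∀ s ∈ S, lab b s ++ r ∈ T

/-- The rank of the node `s` of a well-founded tree `S` -/
noncomputable def rk {S : Set (List ℕ)} (hS : WellFounded (Child S)) (s : List ℕ) : Ordinal.{0} :=
  (hS.apply s).rank

theorem rk_lt {S : Set (List ℕ)} (hS : WellFounded (Child S)) {t s : List ℕ} (h : Child S t s) :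
    rk hS t < rk hS s :=
  Acc.rank_lt_of_rel (hS.apply s) h

theorem lt_rk {S : Set (List ℕ)} (hS : WellFounded (Child S)) {s : List ℕ} {o : Ordinal.{0}}
    (h : o < rk hS s) : ∃ t, Child S t s ∧ o ≤ rk hS t := by
  rw [rk, Acc.rank_eq, Ordinal.lt_iSup_iff] at h
  obtain ⟨⟨t, ht⟩, h⟩ := h
  exact ⟨t, ht, Order.lt_succ_iff.1 h⟩

theorem rk_le {S : Set (List ℕ)} (hS : WellFounded (Child S)) {s : List ℕ} {o : Ordinal.{0}}
    (h : ∀ t, Child S t s → rk hS t < o) : rk hS s ≤ o := by
  by_contra hc
  obtain ⟨t, ht, hot⟩ := lt_rk hS (not_le.1 hc)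
  exact absurd (h t ht) (not_lt.2 hot)

/-- an inequality of ranks gives an embedding -/
theorem emb_of_rk_le {S T : Set (List ℕ)} (hSt : ∀ a s, a :: s ∈ S → s ∈ S)
    (hS : WellFounded (Child S)) (hT : WellFounded (Child T)) {r : List ℕ} (hr : r ∈ T)
    (h : rk hS [] ≤ rk hT r) : Emb S T r := by
  classical
  let ext : List ℕ → List ℕ → ℕ := fun s u =>
    if h : ∃ b, b :: u ∈ T ∧ rk hS s ≤ rk hT (b :: u) then h.choose else 0
  let th : List ℕ → List ℕ := fun s => List.rec r (fun a s' ih => ext (a :: s') ih :: ih) s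
  have th_nil : th [] = r := rfl
  have th_cons : ∀ a s, th (a :: s) = ext (a :: s) (th s) :: th s := fun a s => rfl
  have key : ∀ s, s ∈ S → th s ∈ T ∧ rk hS s ≤ rk hT (th s) := by
    intro s
    induction s with
    | nil => intro _; exact ⟨hr, h⟩
    | cons a s ih =>
      intro hs
      have hs' := hSt a s hs
      obtain ⟨h1, h2⟩ := ih hs'
      have h3 : rk hS (a :: s) < rk hT (th s) := lt_of_lt_of_le (rk_lt hS ⟨a, rfl, hs⟩) h2
      obtain ⟨t, ⟨b, rfl, hbT⟩, hle⟩ := lt_rk hT h3
      have hex : ∃ b, b :: th s ∈ T ∧ rk hS (a :: s) ≤ rk hT (b :: th s) := ⟨b, hbT, hle⟩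
      rw [th_cons]
      have : ext (a :: s) (th s) = hex.choose := by
        simp only [ext, dif_pos hex]
      rw [this]
      exact hex.choose_spec
  refine ⟨fun s => (th s).headD 0, ?_⟩
  have hlab : ∀ s, lab (fun s => (th s).headD 0) s ++ r = th s := by
    intro s
    induction s with
    | nil => rfl
    | cons a s ih =>
      rw [lab, List.cons_append, ih, th_cons]
      rfl
  intro s hs
  rw [hlab]
  exact (key s hs).1

theorem child_lab {S T : Set (List ℕ)} {r : List ℕ} {b : List ℕ → ℕ}
    (hb : ∀ s ∈ S, lab b s ++ r ∈ T) {t s : List ℕ} (h : Child S t s) :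
    Child T (lab b t ++ r) (lab b s ++ r) := by
  obtain ⟨a, rfl, hS⟩ := h
  exact ⟨b (a :: s), rfl, hb _ hS⟩

theorem wf_of_emb {S T : Set (List ℕ)} {r : List ℕ} (h : Emb S T r)
    (hT : WellFounded (Child T)) : WellFounded (Child S) := by
  obtain ⟨b, hb⟩ := h
  exact Subrelation.wf (fun {t s} h => child_lab hb h) (InvImage.wf (fun s => lab b s ++ r) hT)

theorem rk_le_of_emb {S T : Set (List ℕ)} {r : List ℕ} (h : Emb S T r)
    (hS : WellFounded (Child S)) (hT : WellFounded (Child T)) : rk hS [] ≤ rk hT r := by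
  obtain ⟨b, hb⟩ := h
  have key : ∀ s, rk hS s ≤ rk hT (lab b s ++ r) := by
    intro s
    induction s using hS.induction with
    | _ s ih =>
      refine rk_le hS fun t ht => ?_
      exact lt_of_le_of_lt (ih t ht) (rk_lt hT (child_lab hb ht))
  exact key []

/-- the strict comparison: `S` embeds in `T` above a node of length one -/
def Below (S T : Set (List ℕ)) : Prop := ∃ c : ℕ, Emb S T [c]

theorem dichotomy {S T : Set (List ℕ)} (hSt : ∀ a s, a :: s ∈ S → s ∈ S)
    (hTt : ∀ a s, a :: s ∈ T → s ∈ T) (hS : WellFounded (Child S)) (hT : WellFounded (Child T))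
    (h0 : [] ∈ T) : Emb S T [] ∨ Below T S := by
  rcases le_or_gt (rk hS []) (rk hT []) with h | h
  · exact Or.inl (emb_of_rk_le hSt hS hT h0 h)
  · right
    obtain ⟨t, ⟨c, rfl, hc⟩, hle⟩ := lt_rk hS h
    exact ⟨c, emb_of_rk_le hTt hT hS hc hle⟩

theorem wf_of_below {S T : Set (List ℕ)} (h : Below S T)
    (hT : WellFounded (Child T)) : WellFounded (Child S) := by
  obtain ⟨c, hc⟩ := h
  exact wf_of_emb hc hT

theorem rk_lt_of_below {S T : Set (List ℕ)} (h : Below S T) (h0 : [] ∈ S)
    (hS : WellFounded (Child S)) (hT : WellFounded (Child T)) : rk hS [] < rk hT [] := by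
  obtain ⟨c, hc⟩ := h
  refine lt_of_le_of_lt (rk_le_of_emb hc hS hT) (rk_lt hT ⟨c, rfl, ?_⟩)
  obtain ⟨b, hb⟩ := hc
  exact hb [] h0

/-! ### The tree attached to a point by a continuous map -/

section TreeOf

variable (φ : (ℕ → ℕ) → (ℕ → ℕ))

/-- The tree of attempts to find `z` with `φ z = x` -/
def treeOf (x : ℕ → ℕ) : Set (List ℕ) :=
  {s | ∃ z, res z s.length = s ∧ res (φ z) s.length = res x s.length}

theorem nil_mem_treeOf (x : ℕ → ℕ) : [] ∈ treeOf φ x := ⟨x, rfl, rfl⟩

theorem treeOf_tail (x : ℕ → ℕ) (a : ℕ) (s : List ℕ) (h : a :: s ∈ treeOf φ x) :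
    s ∈ treeOf φ x := by
  obtain ⟨z, h1, h2⟩ := h
  rw [List.length_cons] at h1 h2
  refine ⟨z, res_tail h1, ?_⟩
  rw [res_succ, res_succ] at h2
  exact (List.cons.inj h2).2

/-- `φ z = x` for no `z` exactly when the tree is well-founded -/
theorem wf_treeOf_iff (hφ : Continuous φ) (x : ℕ → ℕ) :
    WellFounded (Child (treeOf φ x)) ↔ x ∉ range φ := by
  constructor
  · rintro hwf ⟨z, rfl⟩
    have hmem : ∀ n, res z n ∈ treeOf φ (φ z) := fun n => ⟨z, by simp, by simp⟩
    have : ∀ s, ∀ n, s = res z n → False := by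
      intro s
      induction s using hwf.induction with
      | _ s ih =>
        rintro n rfl
        exact ih (res z (n + 1)) ⟨z n, rfl, hmem (n + 1)⟩ (n + 1) rfl
    exact this _ 0 rfl
  · intro hx
    -- the root is accessible
    have hroot : Acc (Child (treeOf φ x)) [] := by
      by_contra hna
      have step : ∀ s : {s : List ℕ // ¬ Acc (Child (treeOf φ x)) s},
          ∃ a, ¬ Acc (Child (treeOf φ x)) (a :: s.1) ∧ a :: s.1 ∈ treeOf φ x := by
        rintro ⟨s, hs⟩
        by_contra h
        push Not at h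
        apply hs
        refine Acc.intro s ?_
        rintro _ ⟨a, rfl, ha⟩
        by_contra hna
        exact h a hna ha
      choose nxt hnxt hnxtT using step
      let st : ℕ → {s : List ℕ // ¬ Acc (Child (treeOf φ x)) s} := fun n =>
        Nat.rec ⟨[], hna⟩ (fun _ s => ⟨nxt s :: s.1, hnxt s⟩) n
      have st_succ : ∀ n, (st (n + 1)).1 = nxt (st n) :: (st n).1 := fun n => rfl
      let z : ℕ → ℕ := fun n => nxt (st n)
      have hres : ∀ n, res z n = (st n).1 := by
        intro n
        induction n with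
        | zero => rfl
        | succ n ih => rw [res_succ, st_succ, ih]
      have hT : ∀ n, res z n ∈ treeOf φ x := by
        intro n
        cases n with
        | zero => exact nil_mem_treeOf φ x
        | succ n => rw [hres, st_succ]; exact hnxtT _
      apply hx
      refine ⟨z, ?_⟩
      by_contra hne
      -- find a coordinate where they differ
      obtain ⟨k, hk⟩ : ∃ k, φ z k ≠ x k := by
        by_contra h
        push Not at h
        exact hne (funext h)
      have hcont : Continuous fun z => φ z k := (continuous_apply k).comp hφ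
      have hU : (fun z => φ z k) ⁻¹' {φ z k} ∈ nhds z :=
        ((isOpen_discrete _).preimage hcont).mem_nhds rfl
      obtain ⟨n, hn⟩ := exists_cyl_subset hU
      obtain ⟨w, hw1, hw2⟩ := hT (n + k + 1)
      rw [res_length] at hw1 hw2
      have h1 : φ w k = φ z k := hn (n + k + 1) (by omega) hw1
      have h2 : φ w k = x k := (res_eq_res.1 hw2) (by omega)
      exact hk (h1.symm.trans h2)
    constructor
    intro s
    by_cases hs : s ∈ treeOf φ x
    · induction s with
      | nil => exact hroot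
      | cons a s ih => exact (ih (treeOf_tail φ x a s hs)).inv ⟨a, rfl, hs⟩
    · refine Acc.intro s ?_
      rintro _ ⟨a, rfl, ha⟩
      exact absurd (treeOf_tail φ x a s ha) hs

/-- the strict comparison of points -/
def PBelow (y x : ℕ → ℕ) : Prop := Below (treeOf φ y) (treeOf φ x)

/-- the non-strict comparison of points -/
def PLe (x y : ℕ → ℕ) : Prop := Emb (treeOf φ x) (treeOf φ y) []

variable {φ}

theorem ple_of_not_pbelow (hφ : Continuous φ) {x y : ℕ → ℕ} (hx : x ∉ range φ) (hy : y ∉ range φ)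
    (h : ¬ PBelow φ y x) : PLe φ x y :=
  (dichotomy (treeOf_tail φ x) (treeOf_tail φ y) ((wf_treeOf_iff φ hφ x).2 hx)
    ((wf_treeOf_iff φ hφ y).2 hy) (nil_mem_treeOf φ y)).resolve_right h

theorem not_mem_of_ple (hφ : Continuous φ) {x y : ℕ → ℕ} (hy : y ∉ range φ)
    (h : PLe φ x y) : x ∉ range φ :=
  (wf_treeOf_iff φ hφ x).1 (wf_of_emb h ((wf_treeOf_iff φ hφ y).2 hy))

theorem not_mem_of_pbelow (hφ : Continuous φ) {y x : ℕ → ℕ} (hx : x ∉ range φ)
    (h : PBelow φ y x) : y ∉ range φ :=
  (wf_treeOf_iff φ hφ y).1 (wf_of_below h ((wf_treeOf_iff φ hφ x).2 hx))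

/-- minimal elements exist for the strict comparison, in every nonempty family indexed by points
outside the range of `φ` -/
theorem exists_minimal (hφ : Continuous φ) {ι : Type*} (p : ι → (ℕ → ℕ))
    (hp : ∀ i, p i ∉ range φ) (Q : ι → Prop) (hQ : ∃ i, Q i) :
    ∃ i, Q i ∧ ∀ j, Q j → ¬ PBelow φ (p j) (p i) := by
  let ρ : ι → Ordinal.{0} := fun i => rk ((wf_treeOf_iff φ hφ (p i)).2 (hp i)) []
  have hwf : WellFounded (InvImage (· < ·) ρ) := InvImage.wf ρ Ordinal.lt_wf
  obtain ⟨i, hi, hmin⟩ := hwf.has_min {i | Q i} hQ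
  refine ⟨i, hi, fun j hj hb => hmin j hj ?_⟩
  exact rk_lt_of_below hb (nil_mem_treeOf φ (p j)) _ _

end TreeOf

end MP73ea52
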